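import Mathlib
import Pool.Agent.H88.CR.Targets

/-!
Rotund ranges (MP_479f73_an): the new norm is weakly uniformly convex.
-/

set_option autoImplicit false

open Filter Topology Set

namespace Pool.Agent.H46.CVR

open Pool.Agent.H85.WMP Pool.Agent.H88.WR Pool.Agent.H88.CR

theorem WCB_df_nonneg {F : Type} [NormedAddCommGroup F] (x y : F) : 0 ≤ Df x y := by
  unfold Df
  have h := norm_add_le x y
  have h0 := norm_nonneg (x + y)
  nlinarith [sq_nonneg (‖x‖ - ‖y‖), norm_nonneg x, norm_nonneg y]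

theorem pf_WCB (𝕜 : Type) [RCLike 𝕜] (hDFE : T_DFE 𝕜) : T_WCB 𝕜 := by
  intro F _ _ F' _ _ e φ c ε κ M hS hW x y hx hy hxy
  obtain ⟨h1, h2⟩ := hDFE F F' e φ c ε κ M hS
  have hκε : 0 < κ * ε := mul_pos hS.κ0 hS.ε0
  have hb : ∀ z : F', ‖z‖ = 1 → ‖e z‖ ≤ 1 / (κ * ε) := by
    intro z hz
    rw [le_div_iff₀ hκε]
    have := h1 z
    rw [hz] at this
    linarith
  have hlim : Tendsto (fun n => (4 - ‖x n + y n‖ ^ 2) / (κ * ε) ^ 2) atTop (𝓝 0) := by
    have h : Tendsto (fun n => (4 - ‖x n + y n‖ ^ 2) / (κ * ε) ^ 2) atTop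
        (𝓝 ((4 - 2 ^ 2) / (κ * ε) ^ 2)) :=
      ((tendsto_const_nhds.sub (hxy.pow 2))).div_const _
    have h0 : ((4 : ℝ) - 2 ^ 2) / (κ * ε) ^ 2 = 0 := by norm_num
    rwa [h0] at h
  have hD : Tendsto (fun n => Df (e (x n)) (e (y n))) atTop (𝓝 0) := by
    refine tendsto_of_tendsto_of_tendsto_of_le_of_le tendsto_const_nhds hlim
      (fun n => WCB_df_nonneg _ _) ?_
    intro n
    have h := h2 (x n) (y n) (hx n).le (hy n).le
    show Df (e (x n)) (e (y n)) ≤ (4 - ‖x n + y n‖ ^ 2) / (κ * ε) ^ 2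
    rw [le_div_iff₀ (pow_pos hκε 2)]
    linarith
  have hN := hW (fun n => e (x n)) (fun n => e (y n)) (1 / (κ * ε)) (fun n => hb _ (hx n))
    (fun n => hb _ (hy n)) hD
  intro g
  have h := hN (g.comp (e.symm : F →L[𝕜] F'))
  refine h.congr fun n => ?_
  simp

end Pool.Agent.H46.CVR
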